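import Mathlib
import Pool.Agent.H77.ConeDefs
import Pool.Agent.H77.ConeProof

set_option autoImplicit false

namespace Pool.Agent.Results.MP_56eb46_lc.ConeMinimal

open Pool.Agent.H77.Cone

/-- Every bounded language `L` of degree `k` (for any `k ≥ 2`) that belongs to the rational cone
generated by `S_≠^{(k)}` is regular or generates this cone.  In particular the cone
`T(S_≠^{(k)})` is minimal with respect to bounded algebraic languages of degree `k`, for every
`k ≥ 3`.  (The language `L` is not assumed to be algebraic.) -/
theorem result (k : ℕ) (hk : 2 ≤ k) (Y : Type) [Finite Y] (L : Language Y)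
    (hbd : BoundedOfDegree k L) (hL : InCone (SNeq k) L) :
    L.IsRegular ∨ SameCone L (SNeq k) :=
  main k hk Y L hbd hL

end Pool.Agent.Results.MP_56eb46_lc.ConeMinimal
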